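import Mathlib
import Pool.Agent.H.MP_b0c270_co.Assemble

set_option autoImplicit false

namespace Pool.Agent.Results.MP_b0c270_co.QuadraticBound

/-- The vertex set of the regular `N`-gon with centre `c` one of whose vertices is `c + a`
(its circumradius is `‖a‖`). The plane is identified with `ℂ`. -/
def ngon (N : ℕ) (c a : ℂ) : Set ℂ :=
  {z | ∃ k : ℕ, k < N ∧ z = c + a * Complex.exp (2 * Real.pi * Complex.I * k / N)}

/-- The `N` pieces occupy exactly the vertices of a regular `N`-gon with circumradius `r`. -/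
def OnNgon {N : ℕ} (p : Fin N → ℂ) (r : ℝ) : Prop :=
  ∃ c a : ℂ, ‖a‖ = r ∧ Set.range p = ngon N c a

/-- One legal move: piece `i` jumps over piece `j ≠ i`. -/
def LegalMove {N : ℕ} (p q : Fin N → ℂ) : Prop :=
  ∃ i j : Fin N, i ≠ j ∧ q = Function.update p i (2 * p j - p i)

/-- `Reach n p q`: exactly `n` legal moves lead from the configuration `p` to `q`. -/
inductive Reach {N : ℕ} : ℕ → (Fin N → ℂ) → (Fin N → ℂ) → Prop
  | refl (p : Fin N → ℂ) : Reach 0 p p
  | tail {n : ℕ} {p q r : Fin N → ℂ} : Reach n p q → LegalMove q r → Reach (n + 1) p r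

/-- The set of all `n` such that `n` legal moves can lead from `p` to a configuration whose pieces
occupy exactly the vertices of a regular `N`-gon with circumradius larger than `r`. -/
def Enlarging {N : ℕ} (p : Fin N → ℂ) (r : ℝ) : Set ℕ :=
  {n | ∃ (q : Fin N → ℂ) (R : ℝ), r < R ∧ Reach n p q ∧ OnNgon q R}

/-- The standard starting position: a regular `N`-gon with circumradius `1`. -/
noncomputable def stdStart (N : ℕ) : Fin N → ℂ := fun k =>
  Complex.exp (2 * Real.pi * Complex.I * (k : ℕ) / N)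

/-- `f(N)`: the least number of legal moves which turn a regular `N`-gon into a larger one. -/
noncomputable def f (N : ℕ) : ℕ := sInf (Enlarging (stdStart N) 1)

theorem reach_iff {N n : ℕ} {p q : Fin N → ℂ} :
    Reach n p q ↔ Pool.Agent.H.MP_b0c270_co.Reach n p q := by
  constructor
  · intro h
    induction h with
    | refl p => exact Pool.Agent.H.MP_b0c270_co.Reach.refl p
    | tail _ hm ih => exact Pool.Agent.H.MP_b0c270_co.Reach.tail ih hm
  · intro h
    induction h with
    | refl p => exact Reach.refl p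
    | tail _ hm ih => exact Reach.tail ih hm

theorem enlarging_eq {N : ℕ} (p : Fin N → ℂ) (r : ℝ) :
    Enlarging p r = Pool.Agent.H.MP_b0c270_co.Enlarging p r := by
  ext n
  constructor
  · rintro ⟨q, R, h1, h2, h3⟩
    exact ⟨q, R, h1, reach_iff.mp h2, h3⟩
  · rintro ⟨q, R, h1, h2, h3⟩
    exact ⟨q, R, h1, reach_iff.mpr h2, h3⟩

theorem f_eq (N : ℕ) : f N = Pool.Agent.H.MP_b0c270_co.f N := by
  unfold f Pool.Agent.H.MP_b0c270_co.f
  rw [enlarging_eq]
  rfl

/-- For `N = 5` and for every `N ≥ 7` the number `f(N)` is the least number of legal moves which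
turn any given regular `N`-gon into a larger one, and `N - 2 ≤ f(N) ≤ (9/4) N²`. -/
theorem result : ∀ N : ℕ, (N = 5 ∨ 7 ≤ N) →
    (∀ (p : Fin N → ℂ) (r : ℝ), 0 < r → OnNgon p r → IsLeast (Enlarging p r) (f N)) ∧
    N ≤ f N + 2 ∧ 4 * f N ≤ 9 * N ^ 2 := by
  intro N hN
  rw [f_eq]
  refine ⟨?_, ?_, ?_⟩
  · intro p r hr hp
    rw [enlarging_eq]
    exact Pool.Agent.H.MP_b0c270_co.isLeast_f hN hr hp
  · exact Pool.Agent.H.MP_b0c270_co.lower (by omega) (Pool.Agent.H.MP_b0c270_co.bound_general hN).1
  · exact (Pool.Agent.H.MP_b0c270_co.bound_general hN).2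

end Pool.Agent.Results.MP_b0c270_co.QuadraticBound
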